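import Mathlib

/-!
# Zeitlin's question on Fibonacci and Lucas numbers as sums of two Ulam numbers

Both halves of the question are answered in the negative: neither the Fibonacci number `F_20 = 6765`
nor the Lucas number `L_17 = 3571` is an Ulam number or a sum of two distinct Ulam numbers.
-/

set_option autoImplicit false

namespace Pool.Agent.Results.MP_7bafff_nt.NotTwoUlam

/-- `u` is the Ulam sequence `u 1 = 1`, `u 2 = 2`, and for `n ≥ 3` the term `u n` is the least
integer greater than `u (n - 1)` that can be written in exactly one way as `u i + u j` with
`1 ≤ i < j < n`. (The value `u 0` is not used.) -/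
def IsUlamSequence (u : ℕ → ℕ) : Prop :=
  u 1 = 1 ∧ u 2 = 2 ∧ ∀ n, 3 ≤ n →
    IsLeast {m : ℕ | u (n - 1) < m ∧
      ∃! p : ℕ × ℕ, 1 ≤ p.1 ∧ p.1 < p.2 ∧ p.2 < n ∧ m = u p.1 + u p.2} (u n)

/-- `m` is a term of the sequence `u` or a sum of two distinct terms. -/
def IsSumOfAtMostTwo (u : ℕ → ℕ) (m : ℕ) : Prop :=
  (∃ i, 1 ≤ i ∧ m = u i) ∨ ∃ i j, 1 ≤ i ∧ i < j ∧ m = u i + u j

/-- The Lucas numbers. -/
def lucas : ℕ → ℕ
  | 0 => 2
  | 1 => 1
  | n + 2 => lucas (n + 1) + lucas n

/-! ### Existence of the sequence -/

/-- The next term, given the previous ones. -/
noncomputable def next (g : ℕ → ℕ) (n : ℕ) : ℕ :=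
  if n ≤ 2 then n else
    sInf {m : ℕ | g (n - 1) < m ∧
      ∃! p : ℕ × ℕ, 1 ≤ p.1 ∧ p.1 < p.2 ∧ p.2 < n ∧ m = g p.1 + g p.2}

/-- Finite approximations of the sequence. -/
noncomputable def G : ℕ → ℕ → ℕ
  | 0 => fun _ => 0
  | n + 1 => Function.update (G n) n (next (G n) n)

lemma G_stable (k m : ℕ) (h : k < m) : G m k = G (k + 1) k := by
  induction m with
  | zero => omega
  | succ m ih =>
    rcases Nat.lt_or_ge k m with h1 | h1
    · rw [← ih h1]
      show Function.update (G m) m (next (G m) m) k = G m k
      rw [Function.update_of_ne (by omega)]
    · have : k = m := by omega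
      subst this
      rfl

/-- The Ulam sequence. -/
noncomputable def U (n : ℕ) : ℕ := G (n + 1) n

lemma next_congr (g h : ℕ → ℕ) (n : ℕ) (H : ∀ k < n, g k = h k) : next g n = next h n := by
  unfold next
  split_ifs with hn
  · rfl
  · congr 1
    ext m
    have e1 : g (n - 1) = h (n - 1) := H _ (by omega)
    have e2 : ∀ p : ℕ × ℕ, (1 ≤ p.1 ∧ p.1 < p.2 ∧ p.2 < n ∧ m = g p.1 + g p.2) ↔
        (1 ≤ p.1 ∧ p.1 < p.2 ∧ p.2 < n ∧ m = h p.1 + h p.2) := by
      intro p
      constructor
      · rintro ⟨a, b, c, d⟩
        refine ⟨a, b, c, ?_⟩
        rw [← H _ (by omega), ← H _ c]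
        exact d
      · rintro ⟨a, b, c, d⟩
        refine ⟨a, b, c, ?_⟩
        rw [H _ (by omega), H _ c]
        exact d
    simp only [Set.mem_ofPred_eq]
    rw [e1]
    simp only [e2]

lemma U_eq (n : ℕ) : U n = next U n := by
  have h1 : U n = next (G n) n := by
    show Function.update (G n) n (next (G n) n) n = _
    simp
  rw [h1]
  apply next_congr
  intro k hk
  exact G_stable k n hk

lemma U_aux (n : ℕ) (hn : 3 ≤ n) (hm : ∀ i j, 1 ≤ i → i < j → j < n → U i < U j)
    (hpos : ∀ i, 1 ≤ i → i < n → 0 < U i) :
    IsLeast {m : ℕ | U (n - 1) < m ∧
      ∃! p : ℕ × ℕ, 1 ≤ p.1 ∧ p.1 < p.2 ∧ p.2 < n ∧ m = U p.1 + U p.2} (U n) := by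
  have hne : {m : ℕ | U (n - 1) < m ∧
      ∃! p : ℕ × ℕ, 1 ≤ p.1 ∧ p.1 < p.2 ∧ p.2 < n ∧ m = U p.1 + U p.2}.Nonempty := by
    refine ⟨U (n - 2) + U (n - 1), ?_, (n - 2, n - 1), ?_, ?_⟩
    · have := hpos (n - 2) (by omega) (by omega)
      omega
    · exact ⟨by simp; omega, by simp; omega, by simp; omega, rfl⟩
    · rintro ⟨a, b⟩ ⟨h1, h2, h3, h4⟩
      simp only at h1 h2 h3 h4
      have hb : U b ≤ U (n - 1) := by
        rcases Nat.lt_or_ge b (n - 1) with h | h
        · exact (hm b (n - 1) (by omega) h (by omega)).le
        · have : b = n - 1 := by omega
          rw [this]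
      have ha : U a ≤ U (n - 2) := by
        rcases Nat.lt_or_ge a (n - 2) with h | h
        · exact (hm a (n - 2) (by omega) h (by omega)).le
        · have : a = n - 2 := by omega
          rw [this]
      have hb' : ¬ b < n - 1 := by
        intro h
        have := hm b (n - 1) (by omega) h (by omega)
        omega
      have ha' : ¬ a < n - 2 := by
        intro h
        have := hm a (n - 2) (by omega) h (by omega)
        omega
      ext
      · simp; omega
      · simp; omega
  have h2 : U n = sInf {m : ℕ | U (n - 1) < m ∧
      ∃! p : ℕ × ℕ, 1 ≤ p.1 ∧ p.1 < p.2 ∧ p.2 < n ∧ m = U p.1 + U p.2} := by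
    rw [U_eq]
    unfold next
    rw [if_neg (by omega)]
  refine ⟨?_, ?_⟩
  · have h3 := Nat.sInf_mem hne
    rw [← h2] at h3
    exact h3
  · intro m hm'
    rw [h2]
    exact Nat.sInf_le hm'

lemma U_one : U 1 = 1 := by rw [U_eq]; simp [next]
lemma U_two : U 2 = 2 := by rw [U_eq]; simp [next]

lemma U_mono (n : ℕ) : (∀ i j, 1 ≤ i → i < j → j < n → U i < U j) ∧
    (∀ i, 1 ≤ i → i < n → 0 < U i) := by
  induction n with
  | zero => exact ⟨by omega, by omega⟩
  | succ n ih =>
    rcases Nat.lt_or_ge n 3 with h | h
    · constructor
      · intro i j h1 h2 h3
        have hi : i = 1 := by omega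
        have hj : j = 2 := by omega
        subst hi; subst hj
        rw [U_one, U_two]; omega
      · intro i h1 h2
        have hi : i = 1 ∨ i = 2 := by omega
        rcases hi with rfl | rfl
        · rw [U_one]; omega
        · rw [U_two]; omega
    · obtain ⟨h1, h2⟩ := ih
      have h3 := (U_aux n h h1 h2).1.1
      have h4 : ∀ i, 1 ≤ i → i < n → U i < U n := by
        intro i hi hin
        rcases Nat.lt_or_ge i (n - 1) with h5 | h5
        · exact (h1 i (n - 1) hi h5 (by omega)).trans h3
        · have : i = n - 1 := by omega
          rw [this]; exact h3
      constructor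
      · intro i j hi hij hj
        rcases Nat.lt_or_ge j n with h5 | h5
        · exact h1 i j hi hij h5
        · have : j = n := by omega
          subst this
          exact h4 i hi hij
      · intro i hi hin
        rcases Nat.lt_or_ge i n with h5 | h5
        · exact h2 i hi h5
        · have : i = n := by omega
          subst this
          exact lt_of_le_of_lt (Nat.zero_le _) (h4 1 le_rfl (by omega))

lemma U_isUlam : IsUlamSequence U :=
  ⟨U_one, U_two, fun n hn => U_aux n hn (U_mono n).1 (U_mono n).2⟩

/-! ### General facts on the sequence -/

section
variable {u : ℕ → ℕ} (hu : IsUlamSequence u)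
include hu

lemma lt_succ (n : ℕ) (hn : 1 ≤ n) : u n < u (n + 1) := by
  rcases Nat.lt_or_ge n 2 with h | h
  · have : n = 1 := by omega
    subst this
    rw [hu.1, hu.2.1]; omega
  · exact (hu.2.2 (n + 1) (by omega)).1.1

lemma strict (i j : ℕ) (hi : 1 ≤ i) (hij : i < j) : u i < u j := by
  induction j with
  | zero => omega
  | succ j ih =>
    rcases Nat.lt_or_ge i j with h | h
    · exact (ih h).trans (lt_succ hu j (by omega))
    · have : i = j := by omega
      subst this
      exact lt_succ hu i hi

lemma ge_self (n : ℕ) (hn : 1 ≤ n) : n ≤ u n := by
  induction n with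
  | zero => omega
  | succ n ih =>
    rcases Nat.lt_or_ge n 1 with h | h
    · have : n = 0 := by omega
      subst this
      rw [hu.1]
    · have := ih h
      have := lt_succ hu n h
      omega

/-- The set of terms satisfies the recursive characterisation. -/
lemma mem_iff (m : ℕ) (hm : 3 ≤ m) :
    (∃ i, 1 ≤ i ∧ m = u i) ↔
      ∃! a : ℕ, 2 * a < m ∧ (∃ i, 1 ≤ i ∧ a = u i) ∧ (∃ i, 1 ≤ i ∧ m - a = u i) := by
  constructor
  · rintro ⟨n, hn, rfl⟩
    have hn3 : 3 ≤ n := by
      by_contra h
      have : n = 1 ∨ n = 2 := by omega
      rcases this with rfl | rfl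
      · rw [hu.1] at hm; omega
      · rw [hu.2.1] at hm; omega
    obtain ⟨-, ⟨i, j⟩, ⟨h1, h2, h3, h4⟩, h5⟩ := (hu.2.2 n hn3).1
    simp only at h1 h2 h3 h4
    have hij := strict hu i j h1 h2
    refine ⟨u i, ⟨by omega, ⟨i, h1, rfl⟩, ⟨j, by omega, by omega⟩⟩, ?_⟩
    rintro a ⟨ha, ⟨k, hk, rfl⟩, ⟨l, hl, hl'⟩⟩
    have hkl : k < l := by
      by_contra h
      rcases Nat.lt_or_ge l k with h6 | h6
      · have := strict hu l k hl h6
        omega
      · have : k = l := by omega
        subst this
        omega
    have hln : l < n := by
      by_contra h
      rcases Nat.lt_or_ge n l with h6 | h6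
      · have := strict hu n l (by omega) h6
        omega
      · have : n = l := by omega
        subst this
        have := ge_self hu k hk
        omega
    have := h5 (k, l) ⟨hk, hkl, hln, by simp only; omega⟩
    rw [(Prod.mk.inj this).1]
  · rintro ⟨a, ⟨h1, ⟨k, hk, rfl⟩, ⟨l, hl, hl'⟩⟩, huniq⟩
    -- least index with `m ≤ u n`
    have hex : ∃ n, 1 ≤ n ∧ m ≤ u n := ⟨m, by omega, ge_self hu m (by omega)⟩
    classical
    obtain ⟨hn1, hn2⟩ := Nat.find_spec hex
    set n := Nat.find hex with hn
    have hn3 : 3 ≤ n := by
      by_contra h
      have : n = 1 ∨ n = 2 := by omega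
      rcases this with h | h
      · rw [h, hu.1] at hn2; omega
      · rw [h, hu.2.1] at hn2; omega
    have hprev : u (n - 1) < m := by
      by_contra h
      exact Nat.find_min hex (m := n - 1) (by omega) ⟨by omega, by omega⟩
    have hidx : ∀ i, 1 ≤ i → u i < m → i < n := by
      intro i hi him
      by_contra h
      rcases Nat.lt_or_ge n i with h6 | h6
      · have := strict hu n i (by omega) h6
        omega
      · have : n = i := by omega
        rw [← this] at him; omega
    have hkl : k < l := by
      by_contra h
      rcases Nat.lt_or_ge l k with h6 | h6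
      · have := strict hu l k hl h6
        omega
      · have : k = l := by omega
        subst this
        omega
    have hk1 := ge_self hu k hk
    have hle : u n ≤ m := by
      apply (hu.2.2 n hn3).2
      refine ⟨hprev, (k, l), ⟨hk, hkl, hidx l hl (by omega), by simp only; omega⟩, ?_⟩
      rintro ⟨i, j⟩ ⟨h6, h7, h8, h9⟩
      simp only at h6 h7 h8 h9
      have hij := strict hu i j h6 h7
      have h10 := huniq (u i) ⟨by omega, ⟨i, h6, rfl⟩, ⟨j, by omega, by omega⟩⟩
      have hik : i = k := by
        rcases Nat.lt_trichotomy i k with h | h | h
        · have := strict hu i k h6 h; omega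
        · exact h
        · have := strict hu k i hk h; omega
      subst hik
      have hjl : j = l := by
        rcases Nat.lt_trichotomy j l with h | h | h
        · have := strict hu j l (by omega) h; omega
        · exact h
        · have := strict hu l j hl h; omega
      subst hjl
      rfl
    exact ⟨n, hn1, by omega⟩

end

/-! ### The computation -/

/-- The set of the Ulam numbers up to `6765`, as a bit mask. -/
def M : ℕ := 11215222298342629389249005481976094634885695756348633500288104705032616395876440327764822187242037525009703093337286978179072109794339070084311190257679946267813894930620574882074711786145268281573382377645800430336652750304707139587679678149110880297887025863145323028030833579418946686303427442150076349070817342497081405844693628897688647943783442419815385349281772199809576982653100555575571858147652666474060449052358590612767422083414240479942750755275726379286937737106536351761266286684136368249987365606467722014905370028436462723212674524772641893769562252779503476147320718921435234090314614833999420407026239346225948423625155287598441807009771473410249373356932239497501203953141972962737471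496485364181231666168810955381855954348204233401227404194891876407888589498113681970344135835606973707983638681304267202190257125312301387030257184943593626398066450851315302372262188743697465748242245251728837938049749650175437894822995528032370633515512528544407131122482508371670587534233988128990771530828270757589334327812000291730285217827755626274062080803454243233658144404386617599376065665173706877983052839296442880490081794955632961172722067631987127248202757964409424560866233256703900461596602136746465709052559427151064351294781196966048169924151403479835017998189326672179917045622333083556436904523418712964882845555991508316974284565911583317634722094037709039288962053235599399454171455540194594794257381616134033291709059090662065847076833748892306371728784710491679006879308722604653300790441616850207002921635518104288930530481959426918233464733848455645975987219417071879102529052090477796145311252339275507415870921099078239052574489096954997317881518544314785525628385570673536343222875721671718250394752598940113417071115342582661768362433383108046259507420617212374494295513307731079054638968202109633437030358025285449363606467041418645381403180470535135152461737246577573795502987086952893877734413769702711365515613105493036064991051612380539842675416111254586128262427755626670665500850202683742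

/-- The reversed bit mask: bit `j` is bit `6765 - j` of `M`. -/
def R : ℕ := 281275774628786547017283496149077666794809739386161259379125354502049270716945741732318574219941929649841878440304730843062857067126458449696748650822654702863696924911126382067306202708847398242243679234845891303760261760178777977310032658408691852907797944363019207174599966824693054219250737251268981974097659597499116703425061532062431434644774194046387991243251425590051094517814129691893788160295978842355329010503500066440870156433816654529942185003786715224787690595225472228866495003308373253488139071803370087493955945114563500273695995459203983148824163877519261779157996401245218195713849981125562523351110148943586263128343045397250103526653641217226077884954899601987750174024521733228990394123186243031897150925458994230432881835729358981952116398091739479675335404327430538072906785520450515717072134041555488837942222635965416039568265271245834116601868992959436675210969918626030894111262930166732364556040054385009739569177375102086863862895432418975449129754608861635658942011312854878239758412602144662969424683619137910789248580889670058461485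436949560758268503821695502100327328254451176865868120094525874800519180443266346831207409439854777428946026109696941950354735694742135786001218552144919978071142369516687473010370052589518335461052618721753773902194357701968717194961882281335755790818552341836093158883965189641390193376362206516302821227040003057507059858722652163669773329768332489263459604389668823112836721281902104060779528733953004182412393228014638937623477914782485335204255678123764889514606799810421225657877471268531830462995145639954774461310869718025337311573237256959336999899137924312229056343128460640961937290179081252587374307427671295675982434419027979411834838817678141547667542000757081881028936367577016826282899430711617029779696744449366491307395601482798151795393430347884183881196081076425488108162771343900961647540558375305591308870478408284103648829638661258631637142370886249226725421783953388896393344861016939287028676854591549564638735994581020480653976555033065951330304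

/-- The bits of `Y m` are the `a` with `2 a < m` such that the bits `a` and `m - a` of `M` are set. -/
def Y (m : ℕ) : ℕ := Nat.land M (Nat.shiftRight R (6765 - m)) % 2 ^ ((m + 1) / 2)

/-- Test for a power of two. -/
def isOne (y : ℕ) : Bool := !(Nat.beq y 0) && Nat.beq (Nat.land y (y - 1)) 0

/-- The check for `3 ≤ m < k + 3`. -/
def chk : ℕ → Bool
  | 0 => true
  | k + 1 => (Nat.testBit M (k + 3) == isOne (Y (k + 3))) && chk k

/-- The check of the reversed mask. -/
def chkR : ℕ → Bool
  | 0 => true
  | k + 1 => (Nat.testBit R k == Nat.testBit M (6765 - k)) && chkR k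

set_option maxRecDepth 100000 in
theorem chk_true : chk 6763 = true := by decide +kernel

set_option maxRecDepth 100000 in
theorem chkR_true : chkR 6766 = true := by decide +kernel

lemma R_spec (j : ℕ) (hj : j < 6766) : Nat.testBit R j = Nat.testBit M (6765 - j) := by
  have : ∀ k, chkR k = true → ∀ j < k, Nat.testBit R j = Nat.testBit M (6765 - j) := by
    intro k
    induction k with
    | zero => intro _ j hj; omega
    | succ k ih =>
      intro h j hj
      unfold chkR at h
      rw [Bool.and_eq_true] at h
      rcases Nat.lt_or_ge j k with h1 | h1
      · exact ih h.2 j h1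
      · have : j = k := by omega
        subst this
        exact beq_iff_eq.1 h.1
  exact this 6766 chkR_true j hj

lemma Y_spec (m a : ℕ) (hm : m < 6766) : Nat.testBit (Y m) a = true ↔
    2 * a < m ∧ Nat.testBit M a = true ∧ Nat.testBit M (m - a) = true := by
  unfold Y
  rw [Nat.testBit_mod_two_pow]
  have e1 : Nat.testBit (Nat.land M (Nat.shiftRight R (6765 - m))) a =
      (Nat.testBit M a && Nat.testBit R (6765 - m + a)) := by
    show Nat.testBit (M &&& (R >>> (6765 - m))) a = _
    rw [Nat.testBit_land, Nat.testBit_shiftRight]
  rw [e1]
  by_cases h : 2 * a < m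
  · have h1 : a < (m + 1) / 2 := by omega
    rw [R_spec (6765 - m + a) (by omega)]
    have h2 : 6765 - (6765 - m + a) = m - a := by omega
    rw [h2]
    simp [h, h1]
  · have h1 : ¬ a < (m + 1) / 2 := by omega
    simp [h, h1]

lemma isOne_iff (y : ℕ) : isOne y = true ↔ ∃! a, Nat.testBit y a = true := by
  have h0 : isOne y = true ↔ y.isPowerOfTwo := by
    rw [← Nat.ne_zero_and_sub_one_eq_zero_iff_isPowerOfTwo]
    unfold isOne
    rw [Bool.and_eq_true, Nat.beq_eq]
    constructor
    · rintro ⟨h1, h2⟩
      refine ⟨?_, h2⟩
      rintro rfl
      exact absurd h1 (by decide)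
    · rintro ⟨h1, h2⟩
      refine ⟨?_, h2⟩
      rw [Bool.not_eq_true', Bool.eq_false_iff, Ne, Nat.beq_eq]
      exact h1
  rw [h0]
  constructor
  · rintro ⟨k, hk⟩
    refine ⟨k, ?_, ?_⟩
    · show Nat.testBit y k = true
      rw [hk]
      exact Nat.testBit_two_pow_self
    · intro b hb
      have hb' : Nat.testBit (2 ^ k) b = true := by rw [← hk]; exact hb
      rw [Nat.testBit_two_pow] at hb'
      simpa using (of_decide_eq_true hb').symm
  · rintro ⟨a, ha, huniq⟩
    refine ⟨a, ?_⟩
    apply Nat.eq_of_testBit_eq
    intro i
    rw [Nat.testBit_two_pow]
    by_cases h : a = i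
    · subst h; simpa using ha
    · simp only [h, decide_false]
      rw [Bool.eq_false_iff]
      intro h2
      exact h (huniq i h2).symm

lemma isOne_Y (m : ℕ) (hm : m < 6766) : isOne (Y m) = true ↔
    ∃! a : ℕ, 2 * a < m ∧ Nat.testBit M a = true ∧ Nat.testBit M (m - a) = true := by
  rw [isOne_iff]
  simp only [Y_spec m _ hm]

lemma chk_spec (k : ℕ) (h : chk k = true) (m : ℕ) (h3 : 3 ≤ m) (hm : m < k + 3) :
    (Nat.testBit M m = true ↔ isOne (Y m) = true) := by
  induction k with
  | zero => omega
  | succ k ih =>
    unfold chk at h
    rw [Bool.and_eq_true] at h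
    rcases Nat.lt_or_ge m (k + 3) with h1 | h1
    · exact ih h.2 h1
    · have : m = k + 3 := by omega
      subst this
      have h2 := h.1
      rw [beq_iff_eq] at h2
      rw [h2]

lemma key {u : ℕ → ℕ} (hu : IsUlamSequence u) (m : ℕ) (hm : m < 6766) :
    (∃ i, 1 ≤ i ∧ m = u i) ↔ Nat.testBit M m = true := by
  induction m using Nat.strong_induction_on with
  | _ m ih =>
    rcases Nat.lt_or_ge m 3 with h | h
    · have h012 : m = 0 ∨ m = 1 ∨ m = 2 := by omega
      rcases h012 with rfl | rfl | rfl
      · constructor
        · rintro ⟨i, hi, hi'⟩
          have := ge_self hu i hi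
          omega
        · intro h1
          exact absurd h1 (by decide +kernel)
      · exact ⟨fun _ => by decide +kernel, fun _ => ⟨1, le_rfl, hu.1.symm⟩⟩
      · exact ⟨fun _ => by decide +kernel, fun _ => ⟨2, by norm_num, hu.2.1.symm⟩⟩
    · rw [mem_iff hu m h, chk_spec 6763 chk_true m h (by omega), isOne_Y m hm]
      have e : ∀ a : ℕ, (2 * a < m ∧ (∃ i, 1 ≤ i ∧ a = u i) ∧ (∃ i, 1 ≤ i ∧ m - a = u i)) ↔
          (2 * a < m ∧ Nat.testBit M a = true ∧ Nat.testBit M (m - a) = true) := by
        intro a
        constructor
        · rintro ⟨h1, h2, h3⟩
          have ha : 0 < a := by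
            obtain ⟨i, hi, rfl⟩ := h2
            have := ge_self hu i hi
            omega
          exact ⟨h1, (ih a (by omega) (by omega)).1 h2, (ih (m - a) (by omega) (by omega)).1 h3⟩
        · rintro ⟨h1, h2, h3⟩
          have ha : 0 < a := by
            rcases Nat.eq_zero_or_pos a with h0 | h0
            · rw [h0] at h2
              exact absurd h2 (by decide +kernel)
            · exact h0
          exact ⟨h1, (ih a (by omega) (by omega)).2 h2, (ih (m - a) (by omega) (by omega)).2 h3⟩
      simp only [e]

/-- If bit `m` is not set and `Y m = 0`, then `m` is not a sum of at most two terms. -/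
lemma not_sum {u : ℕ → ℕ} (hu : IsUlamSequence u) (m : ℕ) (hm : m < 6766)
    (h1 : Nat.testBit M m = false) (h2 : Y m = 0) : ¬ IsSumOfAtMostTwo u m := by
  rintro (h | ⟨i, j, hi, hij, h⟩)
  · rw [key hu m hm, h1] at h
    exact absurd h (by simp)
  · have hlt := strict hu i j hi hij
    have hi1 := ge_self hu i hi
    have h3 : Nat.testBit M (u i) = true := (key hu (u i) (by omega)).1 ⟨i, hi, rfl⟩
    have h4 : Nat.testBit M (u j) = true := (key hu (u j) (by omega)).1 ⟨j, by omega, rfl⟩
    have h5 : m - u i = u j := by omega
    have h6 := (Y_spec m (u i) hm).2 ⟨by omega, h3, by rw [h5]; exact h4⟩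
    rw [h2] at h6
    simp at h6

/-- **Answer to Zeitlin's question.** The Ulam sequence exists, and neither the Fibonacci number
`F_20` nor the Lucas number `L_17` is an Ulam number or a sum of two distinct Ulam numbers. -/
theorem result : (∃ u, IsUlamSequence u) ∧ ∀ u, IsUlamSequence u →
    ¬ IsSumOfAtMostTwo u (Nat.fib 20) ∧ ¬ IsSumOfAtMostTwo u (lucas 17) := by
  refine ⟨⟨U, U_isUlam⟩, fun u hu => ⟨?_, ?_⟩⟩
  · have : Nat.fib 20 = 6765 := by decide +kernel
    rw [this]
    exact not_sum hu 6765 (by norm_num) (by decide +kernel) (by decide +kernel)
  · have : lucas 17 = 3571 := by decide +kernel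
    rw [this]
    exact not_sum hu 3571 (by norm_num) (by decide +kernel) (by decide +kernel)

end Pool.Agent.Results.MP_7bafff_nt.NotTwoUlam
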